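import Mathlib

set_option autoImplicit false

namespace Pool.Agent.Results.MP_8a899a_lc.Regular

open Set Cardinal Function

universe u

variable {B C : Type u} [BooleanAlgebra B] [BooleanAlgebra C]

/-- `Ge α a`: the Cantor–Bendixson rank of `a` is at least `α` (auxiliary notion). -/
noncomputable def Ge : Ordinal.{u} → B → Prop :=
  WellFoundedLT.fix fun α IH a => a ≠ ⊥ ∧ ∀ β (h : β < α), ∃ b : ℕ → B,
    Pairwise (Disjoint on b) ∧ ∀ i, b i ≤ a ∧ IH β h (b i)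

theorem ge_iff {α : Ordinal.{u}} {a : B} : Ge α a ↔ a ≠ ⊥ ∧ ∀ β < α, ∃ b : ℕ → B,
    Pairwise (Disjoint on b) ∧ ∀ i, b i ≤ a ∧ Ge β (b i) := by
  rw [Ge, WellFoundedLT.fix_eq]

theorem Ge.anti {α β : Ordinal.{u}} {a : B} (h : Ge α a) (h' : β ≤ α) : Ge β a :=
  ge_iff.2 ⟨(ge_iff.1 h).1, fun γ hγ => (ge_iff.1 h).2 γ (hγ.trans_le h')⟩

theorem Ge.mono {α : Ordinal.{u}} {a a' : B} (h : Ge α a) (h' : a ≤ a') : Ge α a' :=
  ge_iff.2 ⟨ne_bot_of_le_ne_bot (ge_iff.1 h).1 h', fun γ hγ => ((ge_iff.1 h).2 γ hγ).imp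
    fun _ hb => ⟨hb.1, fun i => ⟨(hb.2 i).1.trans h', (hb.2 i).2⟩⟩⟩

theorem Ge.map (f : B → C) (D : Set B) (h1 : ∀ a ∈ D, ∀ b ≤ a, b ∈ D ∧ f b ≤ f a)
    (h2 : ∀ a ∈ D, f a = ⊥ → a = ⊥) (h3 : ∀ a ∈ D, ∀ b ∈ D, Disjoint a b → Disjoint (f a) (f b))
    (α : Ordinal.{u}) : ∀ a ∈ D, Ge α a → Ge α (f a) := by
  induction α using WellFoundedLT.induction with
  | ind α ih =>
    intro a ha h
    refine ge_iff.2 ⟨fun h' => (ge_iff.1 h).1 (h2 a ha h'), fun β hβ => ?_⟩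
    obtain ⟨b, hb, hb'⟩ := (ge_iff.1 h).2 β hβ
    have := fun i => h1 a ha _ (hb' i).1
    exact ⟨f ∘ b, fun i j hij => h3 _ (this i).1 _ (this j).1 (hb hij),
      fun i => ⟨(this i).2, ih β hβ _ (this i).1 (hb' i).2⟩⟩

theorem Ge.coe {A : BooleanSubalgebra B} {α : Ordinal.{u}} {x : A} (h : Ge α x) :
    Ge α (x : B) :=
  Ge.map Subtype.val univ (fun _ _ _ h => ⟨trivial, h⟩) (fun _ _ h => Subtype.ext h)
    (fun _ _ _ _ h => disjoint_iff.2 (congrArg Subtype.val (disjoint_iff.1 h))) α x trivial h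

theorem Ge.lift {A : BooleanSubalgebra B} {α : Ordinal.{u}} {x : A} (hx : ∀ y ≤ (x : B), y ∈ A)
    (h : Ge α (x : B)) : Ge α x := by
  classical
  have := Ge.map (fun y : B => if h : y ∈ A then (⟨y, h⟩ : A) else ⊥) (Iic x)
    (fun a ha b hb => ⟨hb.trans ha, by rw [dif_pos (hx a ha), dif_pos (hx b (hb.trans ha))]; exact hb⟩)
    (fun a ha h => by rw [dif_pos (hx a ha)] at h; exact congrArg Subtype.val h)
    (fun a ha b hb h => by
      rw [dif_pos (hx a ha), dif_pos (hx b hb)]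
      exact disjoint_iff.2 (Subtype.ext (disjoint_iff.1 h))) α x le_rfl h
  rwa [dif_pos x.2] at this

theorem Ge.iso (e : B ≃o C) {α : Ordinal.{u}} {x : B} (h : Ge α x) : Ge α (e x) :=
  Ge.map e univ (fun _ _ _ h => ⟨trivial, e.monotone h⟩) (fun _ _ h => by simpa using h)
    (fun _ _ _ _ h => h.map_orderIso e) α x trivial h

theorem ge_iso (e : B ≃o C) {α : Ordinal.{u}} {x : B} : Ge α (e x) ↔ Ge α x :=
  ⟨fun h => by simpa using h.iso e.symm, fun h => h.iso e⟩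

theorem Ge.sup (α : Ordinal.{u}) : ∀ x y : B, Ge α (x ⊔ y) → Ge α x ∨ Ge α y := by
  induction α using WellFoundedLT.induction with
  | ind α ih =>
    intro x y h
    by_contra hc
    push Not at hc
    have key : ∀ z : B, ¬ Ge α z → z ≠ ⊥ → ∃ β < α, ∀ γ, β ≤ γ → ∀ b : ℕ → B,
        Pairwise (Disjoint on b) → {i | Ge γ (b i ⊓ z)}.Finite := fun z hz h0 => by
      rw [ge_iff] at hz
      push Not at hz
      obtain ⟨β, hβ, h1⟩ := hz h0
      refine ⟨β, hβ, fun γ hγ b hb => not_infinite.1 fun h2 => ?_⟩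
      obtain ⟨i, hi⟩ := h1 (fun i => b (h2.natEmbedding _ i) ⊓ z) fun i j hij =>
        (hb (Subtype.val_injective.ne ((h2.natEmbedding _).injective.ne hij))).mono
          inf_le_left inf_le_left
      exact hi inf_le_right ((h2.natEmbedding _ i).2.anti hγ)
    obtain ⟨β, hβ, h1⟩ := key x hc.1 fun h' => hc.2 (by simpa [h'] using h)
    obtain ⟨γ, hγ, h2⟩ := key y hc.2 fun h' => hc.1 (by simpa [h'] using h)
    obtain ⟨b, hb, hb'⟩ := (ge_iff.1 h).2 _ (max_lt hβ hγ)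
    refine infinite_univ (((h1 _ (le_max_left _ _) b hb).union
      (h2 _ (le_max_right _ _) b hb)).subset fun i _ => ih _ (max_lt hβ hγ) _ _ ?_)
    rw [← inf_sup_left, inf_eq_left.2 (hb' i).1]
    exact (hb' i).2

structure Idl (J : Set B) : Prop where
  bot : ⊥ ∈ J
  down : ∀ x y, x ≤ y → y ∈ J → x ∈ J
  sup : ∀ x ∈ J, ∀ y ∈ J, x ⊔ y ∈ J

def sub {J : Set B} (hJ : Idl J) (b : B) : BooleanSubalgebra B where
  carrier := {x | x ⊓ b ∈ J ∨ b \ x ∈ J}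
  supClosed' := by
    rintro x (hx | hx) y (hy | hy)
    · exact Or.inl (by rw [inf_sup_right]; exact hJ.sup _ hx _ hy)
    · exact Or.inr (hJ.down _ _ (sdiff_le_sdiff_left le_sup_right) hy)
    · exact Or.inr (hJ.down _ _ (sdiff_le_sdiff_left le_sup_left) hx)
    · exact Or.inr (hJ.down _ _ (sdiff_le_sdiff_left le_sup_left) hx)
  infClosed' := by
    rintro x (hx | hx) y (hy | hy)
    · exact Or.inl (hJ.down _ _ (inf_le_inf_right _ inf_le_left) hx)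
    · exact Or.inl (hJ.down _ _ (inf_le_inf_right _ inf_le_left) hx)
    · exact Or.inl (hJ.down _ _ (inf_le_inf_right _ inf_le_right) hy)
    · exact Or.inr (by rw [sdiff_inf]; exact hJ.sup _ hx _ hy)
  compl_mem' := by
    rintro x (hx | hx)
    · exact Or.inr (by rwa [_root_.sdiff_compl, inf_comm])
    · exact Or.inl (by rwa [inf_comm, ← _root_.sdiff_eq])
  bot_mem' := Or.inl (by simpa using hJ.bot)

theorem self_mem {J : Set B} (hJ : Idl J) (b : B) : b ∈ sub hJ b := Or.inr (by simpa using hJ.bot)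

theorem mem_of {J : Set B} (hJ : Idl J) (b : B) {x : B} (h : x ∈ J) : ∀ y ≤ x, y ∈ sub hJ b :=
  fun _ hy => Or.inl (hJ.down _ _ (inf_le_left.trans hy) h)

theorem mem_of' {J : Set B} (hJ : Idl J) {b x : B} (h : x ≤ bᶜ) : ∀ y ≤ x, y ∈ sub hJ b :=
  fun _ hy => Or.inl (by rw [(le_compl_iff_disjoint_right.1 (hy.trans h)).eq_bot]; exact hJ.bot)

theorem top_of {J : Set B} (hJ : Idl J) {b x y : B} (h : Disjoint x y) (hx : b \ x ∈ J)
    (hy : b \ y ∈ J) : b ∈ J := by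
  have := hJ.sup _ hx _ hy
  rwa [← sdiff_inf, h.eq_bot, sdiff_bot] at this

theorem rk_sub {J : Set B} (hJ : Idl J) {b : B} (hb : b ∉ J) {ρ : Ordinal.{u}}
    (h : ∀ k ∈ J, ¬ Ge ρ k) : ¬ Ge (ρ + 1) (⟨b, self_mem hJ b⟩ : sub hJ b) := fun h' => by
  obtain ⟨c, hc, hc'⟩ := (ge_iff.1 h').2 ρ (lt_add_one ρ)
  have : ∀ i, b \ c i ∈ J := fun i => (c i).2.resolve_left fun h1 =>
    h _ h1 (by rw [inf_eq_left.2 (show (c i : B) ≤ b from (hc' i).1)]; exact (hc' i).2.coe)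
  exact hb (top_of hJ (disjoint_iff.2 (congrArg Subtype.val (disjoint_iff.1 (hc zero_ne_one))))
    (this 0) (this 1))

variable (B) in
def K : Set B := {a | ∃ α, ¬ Ge α a}

theorem idl_K : Idl (K B) :=
  ⟨⟨0, fun h => (ge_iff.1 h).1 rfl⟩, fun _ _ h ⟨α, h'⟩ => ⟨α, fun h1 => h' (h1.mono h)⟩,
    fun _ ⟨α, h⟩ _ ⟨β, h'⟩ => ⟨max α β, fun h1 => (Ge.sup _ _ _ h1).elim
      (fun h2 => h (h2.anti (le_max_left _ _))) fun h2 => h' (h2.anti (le_max_right _ _))⟩⟩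

theorem idl_bot : Idl ({⊥} : Set B) :=
  ⟨rfl, fun _ _ h h' => le_bot_iff.1 (h.trans_eq h'), by simp⟩

theorem bound : ∃ ρ, ∀ k ∈ K B, ¬ Ge ρ k := by
  choose α hα using fun k : K B => k.2
  exact ⟨iSup α, fun k hk h => hα ⟨k, hk⟩ (h.anti (Ordinal.le_iSup α _))⟩

theorem top_rk {k : B} (hk : k ∈ K B) (h0 : k ≠ ⊥) : ∃ β, Ge β k ∧ ¬ Ge (β + 1) k := by
  obtain ⟨m, hm, hm'⟩ := wellFounded_lt.has_min _ hk
  have := mt ge_iff.2 hm
  push Not at this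
  obtain ⟨β, hβ, h⟩ := this h0
  refine ⟨β, not_not.1 fun h' => hm' β h' hβ, fun h' => ?_⟩
  obtain ⟨b, hb, hb'⟩ := (ge_iff.1 h').2 β (lt_add_one β)
  obtain ⟨i, hi⟩ := h b hb
  exact hi (hb' i).1 (hb' i).2

theorem atomic (h : ⊤ ∈ K B) (A : BooleanSubalgebra B) : IsAtomic A := by
  refine ⟨fun a => by_contra fun hc => ?_⟩
  push Not at hc
  obtain ⟨α, hα⟩ := h
  have h1 : ∀ x : A, x ≠ ⊥ → x ≤ a → ∃ y, y < x ∧ y ≠ ⊥ := fun x h0 hx => by
    by_contra h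
    push Not at h
    exact hc.2 x ⟨h0, h⟩ hx
  have : ∀ x : A, x ≠ ⊥ → x ≤ a → Ge α x := by
    clear hα
    induction α using WellFoundedLT.induction with
    | ind α ih =>
      intro x h0 hx
      refine ge_iff.2 ⟨h0, fun β hβ => ?_⟩
      choose! g hg hg' using h1
      have h2 : ∀ n, g^[n] x ≠ ⊥ ∧ g^[n] x ≤ x := fun n => by
        induction n with
        | zero => exact ⟨h0, le_rfl⟩
        | succ n ih =>
          rw [iterate_succ_apply']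
          exact ⟨hg' _ ih.1 (ih.2.trans hx), (hg _ ih.1 (ih.2.trans hx)).le.trans ih.2⟩
      have h3 : ∀ n, g^[n + 1] x < g^[n] x := fun n => by
        rw [iterate_succ_apply']
        exact hg _ (h2 n).1 ((h2 n).2.trans hx)
      refine ⟨fun n => g^[n] x \ g^[n + 1] x, (symmetric_disjoint.pairwise_on _).2 fun i j hij =>
        disjoint_sdiff_self_left.mono_right (sdiff_le.trans
          (antitone_nat_of_succ_le (f := fun n => g^[n] x) (fun n => (h3 n).le) hij)), fun i => ?_⟩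
      exact ⟨sdiff_le.trans (h2 i).2, ih β hβ _ (fun h => (h3 i).not_ge (sdiff_eq_bot_iff.1 h))
        (sdiff_le.trans ((h2 i).2.trans hx))⟩
  exact hα ((this a hc.1 le_rfl).coe.mono le_top)

def Z (β : Ordinal.{u}) : Set B := {b | ∀ k ∈ K B, k ≤ b → ¬ Ge β k}

theorem idl_Z (β : Ordinal.{u}) : Idl (Z β : Set B) :=
  ⟨fun _ _ h h' => (ge_iff.1 h').1 (le_bot_iff.1 h), fun _ _ h h' k hk h1 => h' k hk (h1.trans h),
    fun x hx y hy k hk h h' => (Ge.sup β (k ⊓ x) (k ⊓ y) (by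
      rwa [← inf_sup_left, inf_eq_left.2 h])).elim
      (hx _ (idl_K.down _ _ inf_le_left hk) inf_le_right)
      (hy _ (idl_K.down _ _ inf_le_left hk) inf_le_right)⟩

theorem large_sup (hB : ℵ₀ ≤ #B) {x y : B} (h : x ⊔ y = ⊤) : #B ≤ #(Iic x) ∨ #B ≤ #(Iic y) := by
  by_contra hc
  push Not at hc
  refine (mul_lt_of_lt hB hc.1 hc.2).not_ge (mk_le_of_injective
    (f := fun b => ((⟨b ⊓ x, inf_le_right⟩ : Iic x), (⟨b ⊓ y, inf_le_right⟩ : Iic y)))
    fun a b hab => ?_)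
  rw [← inf_top_eq a, ← inf_top_eq b, ← h, inf_sup_left, inf_sup_left,
    Subtype.mk.inj (Prod.mk.inj hab).1, Subtype.mk.inj (Prod.mk.inj hab).2]

variable (hB : ℵ₀ ≤ #B) (H : ∀ A : BooleanSubalgebra B, #A = #B → Nonempty (A ≃o B))
  (hT : ⊤ ∉ K B)

include H in
theorem iso (A : BooleanSubalgebra B) {S : Set B} (h : ∀ x ∈ S, x ∈ A) (h' : #B ≤ #S) :
    Nonempty (A ≃o B) :=
  H A ((mk_set_le _).antisymm (h'.trans (mk_le_mk_of_subset (show S ⊆ (A : Set B) from h))))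

include H hT in
theorem K_lt : #(K B) < #B := not_le.1 fun h => by
  obtain ⟨e⟩ := iso H (sub idl_K ⊤) (fun x hx => mem_of idl_K ⊤ hx x le_rfl) h
  obtain ⟨ρ, hρ⟩ := bound (B := B)
  exact hT ⟨ρ + 1, fun h' => rk_sub idl_K hT hρ ((ge_iso e).1 (h'.mono (e.map_top.ge)))⟩

include hB H hT

theorem large_K {k : B} (hk : k ∈ K B) : #B ≤ #(Iic kᶜ) :=
  (large_sup hB sup_compl_eq_top).resolve_left fun h => (K_lt H hT).not_ge
    (h.trans (mk_le_mk_of_subset fun _ hx => idl_K.down _ _ hx hk))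

omit H hT in
theorem exists_small {b : B} (hb : b ∉ K B) : ∃ c ≤ b, c ≠ ⊥ ∧ #B ≤ #(Iic cᶜ) := by
  obtain ⟨c, hc, hc'⟩ := (ge_iff.1 (not_not.1 fun h => hb ⟨1, h⟩)).2 0 zero_lt_one
  rcases large_sup hB (x := (c 0)ᶜ) (y := (c 1)ᶜ)
    (by rw [← compl_inf, (hc zero_ne_one).eq_bot, compl_bot]) with h | h
  exacts [⟨_, (hc' 0).1, (ge_iff.1 (hc' 0).2).1, h⟩, ⟨_, (hc' 1).1, (ge_iff.1 (hc' 1).2).1, h⟩]

theorem two {β : Ordinal.{u}} {k : B} (hk : k ∈ K B) (h : Ge β k) :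
    ∃ x ∈ K B, ∃ y ∈ K B, Disjoint x y ∧ Ge β x ∧ Ge β y := by
  have h0 : ∀ k ∈ ({⊥} : Set B), ¬ Ge 0 k := fun k hk h => (ge_iff.1 h).1 hk
  obtain ⟨α, hα⟩ := id hk
  rcases eq_or_ne β 0 with rfl | hβ
  · obtain ⟨c, h1, h2, h3⟩ := exists_small hB (b := kᶜ) fun h => hT (by
      simpa using idl_K.sup _ hk _ h)
    have h4 : k ≤ cᶜ := le_compl_comm.1 h1
    obtain ⟨e⟩ := iso H (sub idl_bot c) (mem_of' idl_bot le_rfl) h3
    refine ⟨e ⟨k, mem_of' _ h4 _ le_rfl⟩, ⟨α, fun h => hα ((ge_iso e).1 h).coe⟩,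
      e ⟨c, self_mem _ _⟩, ⟨_, fun h => rk_sub idl_bot h2 h0 ((ge_iso e).1 h)⟩,
      (disjoint_iff.2 (Subtype.ext (le_compl_iff_disjoint_right.1 h4).eq_bot)).map_orderIso e,
      Ge.iso e (Ge.lift (mem_of' _ h4) h), Ge.iso e (ge_iff.2 ⟨fun h => h2 (congrArg Subtype.val h),
        fun _ h => (not_lt_zero h).elim⟩)⟩
  · obtain ⟨e⟩ := iso H (sub idl_bot k) (mem_of' idl_bot le_rfl) (large_K hB H hT hk)
    have h1 := (Ge.sup β (e.symm k \ ⟨k, self_mem _ _⟩) ⟨k, self_mem _ _⟩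
      ((h.iso e.symm).mono le_sdiff_sup)).resolve_right fun h' => rk_sub idl_bot (ge_iff.1 h).1 h0
        (h'.anti (by simpa using Order.one_le_iff_ne_zero.2 hβ))
    refine ⟨k, hk, _, ⟨α, fun h' => hα ((ge_iso e.symm).1 ((Ge.lift (mem_of' _ ?_) h').mono
      sdiff_le))⟩, disjoint_sdiff_self_right, h, h1.coe⟩
    exact le_compl_iff_disjoint_right.2 disjoint_sdiff_self_left

theorem Z_lt {β : Ordinal.{u}} {k : B} (hk : k ∈ K B) (h : Ge β k) : #(Z β : Set B) < #B :=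
  not_le.1 fun h' => by
    obtain ⟨e⟩ := iso H (sub (idl_Z β) ⊤) (fun x hx => mem_of _ ⊤ hx x le_rfl) h'
    obtain ⟨x, hx, y, hy, h1, h2, h3⟩ := two hB H hT hk h
    have : ∀ x ∈ K B, Ge β x → ⊤ \ (e.symm x : B) ∈ Z β := fun x ⟨α, hα⟩ h2 =>
      (e.symm x).2.resolve_left fun h4 => by
        rw [inf_top_eq] at h4
        exact h4 _ ⟨α, fun h5 => hα ((ge_iso e.symm).1 (Ge.lift (mem_of _ ⊤ h4) h5))⟩ le_rfl
          (h2.iso e.symm).coe
    exact top_of (idl_Z β) (disjoint_iff.2 (congrArg Subtype.val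
      (disjoint_iff.1 (h1.map_orderIso e.symm)))) (this x hx h2) (this y hy h3) k hk le_top h

omit hB hT in
theorem split {b : B} (hb : b ∉ K B) (h : #B ≤ #(Iic bᶜ)) : ∃ k ∈ K B, ∃ β, Ge β k ∧
    ¬ Ge (β + 1) k ∧ ∃ k' ∈ K B, b \ k' ∈ Z β := by
  obtain ⟨e⟩ := iso H (sub idl_K b) (mem_of' idl_K le_rfl) h
  obtain ⟨ρ, hρ⟩ := bound (B := B)
  have h0 : (⟨b, self_mem _ _⟩ : sub idl_K b) ≠ ⊥ := fun h =>
    hb (by rw [show b = ⊥ from congrArg Subtype.val h]; exact idl_K.bot)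
  have h1 : e ⟨b, self_mem _ _⟩ ∈ K B := ⟨_, fun h => rk_sub idl_K hb hρ ((ge_iso e).1 h)⟩
  obtain ⟨β, h2, h3⟩ := top_rk h1 (by simpa using h0)
  refine ⟨_, h1, β, h2, h3, by_contra fun hc => h3 (Ge.iso e ?_)⟩
  obtain ⟨c, hc, hc'⟩ := exists_seq_of_forall_finset_exists'
    (fun x => x ∈ K B ∧ x ≤ b ∧ Ge β x) Disjoint fun s hs => by
      have h4 : s.sup id ∈ K B := Finset.sup_induction idl_K.bot (fun x hx y hy =>
        idl_K.sup x hx y hy) fun x hx => (hs x hx).1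
      simp only [Z, mem_setOf_eq] at hc
      push Not at hc
      obtain ⟨y, h5, h6, h7⟩ := hc _ h4
      exact ⟨y, ⟨h5, h6.trans sdiff_le, h7⟩, fun x hx =>
        disjoint_sdiff_self_right.mono (Finset.le_sup (f := id) hx) h6⟩
  exact ge_iff.2 ⟨h0, fun γ hγ => ⟨fun i => ⟨c i, mem_of _ _ (hc i).1 _ le_rfl⟩, fun i j hij =>
    disjoint_iff.2 (Subtype.ext (hc' hij).eq_bot), fun i => ⟨(hc i).2.1,
      Ge.lift (mem_of _ _ (hc i).1) ((hc i).2.2.anti (Order.lt_add_one_iff.1 hγ))⟩⟩⟩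

theorem not_regular (hr : (#B).IsRegular) : False := by
  have : ∀ k : K B, ∃ β, (∃ β, Ge β k.1) → Ge β k.1 ∧ ¬ Ge (β + 1) k.1 := fun k => by
    by_cases h : k.1 = ⊥
    · exact ⟨0, fun ⟨_, h'⟩ => ((ge_iff.1 h').1 h).elim⟩
    · exact (top_rk k.2 h).imp fun _ h _ => h
  choose r hr' using this
  let S : Set B := K B ∪ ⋃ k : {k : K B // ∃ β, Ge β k.1}, image2 (· ⊔ ·) (K B) (Z (r k))
  have h1 : #S < #B := (mk_union_le _ _).trans_lt (add_lt_of_lt hB (K_lt H hT)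
    ((card_iUnion_lt_iff_forall_of_isRegular hr ((mk_subtype_le _).trans_lt (K_lt H hT))).2
      fun k => mk_image2_le.trans_lt (mul_lt_of_lt hB (K_lt H hT)
        (Z_lt hB H hT k.1.2 (hr' k k.2).1))))
  have h2 : ∀ b : B, #B ≤ #(Iic bᶜ) → b ∈ S := fun b h => or_iff_not_imp_left.2 fun hb => by
    obtain ⟨k, hk, β, h2, h3, k', hk', h4⟩ := split H hb h
    obtain ⟨h5, h6⟩ := hr' ⟨k, hk⟩ ⟨β, h2⟩
    have : β ≤ r ⟨k, hk⟩ := not_lt.1 fun h => h6 (h2.anti (Order.add_one_le_of_lt h))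
    exact mem_iUnion.2 ⟨⟨⟨k, hk⟩, β, h2⟩, b ⊓ k', idl_K.down _ _ inf_le_right hk', b \ k',
      fun x hx h h' => h4 x hx h (h'.anti this), sup_inf_sdiff b k'⟩
  refine (add_lt_of_lt hB h1 (mk_image_le.trans_lt h1 : #(compl '' S) < _)).not_ge
    (mk_univ.ge.trans ((mk_le_mk_of_subset fun b _ => ?_).trans (mk_union_le _ _)))
  exact (large_sup hB (compl_sup_eq_top (x := b))).imp (h2 b) fun h =>
    ⟨bᶜ, h2 _ (by rwa [compl_compl]), compl_compl b⟩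

theorem not_strongLimit (hs : (#B).IsStrongLimit) : False := by
  obtain ⟨c, -, h1, h2⟩ := exists_small hB hT
  obtain ⟨k, hk, h0⟩ : ∃ k ∈ K B, Ge 0 k := by
    by_cases hc : c ∈ K B
    · exact ⟨c, hc, ge_iff.2 ⟨h1, fun _ h => (not_lt_zero h).elim⟩⟩
    · obtain ⟨k, hk, β, h, -⟩ := split H hc h2
      exact ⟨k, hk, h.anti zero_le⟩
  have h3 := Z_lt hB H hT hk h0
  let s : B → Set (K B) := fun b => {k | k.1 ≤ b}
  have h4 : ∀ a b, s a = s b → a \ b ∈ Z 0 := fun a b h k hk h' h'' => (ge_iff.1 h'').1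
    (disjoint_self.1 (disjoint_sdiff_self_left.mono h'
      ((Set.ext_iff.1 h ⟨k, hk⟩).1 (h'.trans sdiff_le))))
  have h5 : ∀ b, s (invFun s (s b)) = s b := fun b => invFun_eq ⟨b, rfl⟩
  refine (mul_lt_of_lt hB (hs.two_power_lt (K_lt H hT)) (mul_lt_of_lt hB h3 h3)).not_ge ?_
  rw [← mk_set, mul_def, mul_def]
  refine mk_le_of_injective (f := fun b => (s b, ⟨b \ invFun s (s b), h4 _ _ (h5 b).symm⟩,
    ⟨invFun s (s b) \ b, h4 _ _ (h5 b)⟩)) fun a b h => ?_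
  simp only [Prod.mk.injEq, Subtype.mk.injEq] at h
  obtain ⟨h, h6, h7⟩ := h
  rw [h] at h6 h7
  exact symmDiff_left_injective (invFun s (s b)) (by simp only [symmDiff_def, h6, h7])

omit hB H hT

/-- Let `B` be an infinite Boolean algebra whose cardinality is a regular cardinal or a strong limit
cardinal. If every subalgebra of `B` of the same cardinality as `B` is isomorphic to `B`, then `B`
is superatomic: every subalgebra of `B` is atomic. -/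
theorem result (B : Type u) [BooleanAlgebra B] [Infinite B]
    (hκ : (#B).IsRegular ∨ (#B).IsStrongLimit)
    (H : ∀ A : BooleanSubalgebra B, #A = #B → Nonempty (A ≃o B)) (A : BooleanSubalgebra B) :
    IsAtomic A :=
  atomic (not_not.1 fun hT => hκ.elim (not_regular (aleph0_le_mk B) H hT)
    (not_strongLimit (aleph0_le_mk B) H hT)) A

end Pool.Agent.Results.MP_8a899a_lc.Regular
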